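import Pool.Agent.W323.PT.Stm

set_option autoImplicit false

namespace Pool.Agent.W806.PT

open Pool.Agent.W323.PT Finset

lemma shift_one (g : ℤ → ℝ) (hg : ∀ r, g (r + 24) = g r) (x : ℤ) :
    ∑ r ∈ range 24, g ((r : ℤ) + (x + 1)) = ∑ r ∈ range 24, g ((r : ℤ) + x) := by
  have h1 : ∑ r ∈ range 25, g ((r : ℤ) + x) = ∑ r ∈ range 24, g ((r : ℤ) + x) + g (24 + x) := by
    rw [Finset.sum_range_succ]; norm_num
  have h2 : ∑ r ∈ range 25, g ((r : ℤ) + x) = ∑ r ∈ range 24, g ((r : ℤ) + (x + 1)) + g x := by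
    rw [Finset.sum_range_succ']
    congr 1
    · refine Finset.sum_congr rfl fun r _ => ?_
      congr 1; push_cast; ring
    · congr 1; push_cast; ring
  have h3 : g (24 + x) = g x := by rw [add_comm]; exact hg x
  linarith

lemma shift (g : ℤ → ℝ) (hg : ∀ r, g (r + 24) = g r) (x : ℤ) :
    ∑ r ∈ range 24, g ((r : ℤ) + x) = ∑ r ∈ range 24, g (r : ℤ) := by
  induction x using Int.induction_on with
  | zero => simp
  | succ i ih => rw [shift_one g hg, ih]
  | pred i ih =>
    rw [← ih, ← shift_one g hg (-(i : ℤ) - 1)]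
    refine Finset.sum_congr rfl fun r _ => ?_
    congr 1; ring

/-- log of the area of a triangle -/
noncomputable def ff (T : ℤ → Pt) (s t r : ℤ) : ℝ :=
  Real.log (o (T r) (T (r + s)) (T (r + s + t)))

lemma ff_per (T : ℤ → Pt) (hT : ∀ i, T (i + 24) = T i) (s t : ℤ) (r : ℤ) :
    ff T s t (r + 24) = ff T s t r := by
  unfold ff
  rw [hT, show r + 24 + s = (r + s) + 24 by ring, hT, show r + s + 24 + t = (r + s + t) + 24 by ring,
    hT]

lemma CL_eq (T : ℤ → Pt) (s t : ℤ) :
    CL T s t = ∑ r ∈ range 24, ff T s t (r : ℤ) + ∑ r ∈ range 24, ff T t s (r : ℤ) := by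
  unfold CL ff
  rw [Finset.sum_add_distrib]

lemma pto (a b c d e : Pt) (h1 : 0 < o a b c) (h2 : 0 < o a d e) (h3 : 0 < o a b e)
    (h4 : 0 < o a c d) (h5 : 0 < o a b d) (h6 : 0 < o a c e) :
    Real.log (o a b c) + Real.log (o a d e) < Real.log (o a b d) + Real.log (o a c e) ∧
    Real.log (o a b e) + Real.log (o a c d) < Real.log (o a b d) + Real.log (o a c e) := by
  have hid : o a b d * o a c e = o a b c * o a d e + o a b e * o a c d := by
    unfold o; ring
  have p1 := mul_pos h1 h2
  have p2 := mul_pos h3 h4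
  rw [← Real.log_mul h1.ne' h2.ne', ← Real.log_mul h3.ne' h4.ne', ← Real.log_mul h5.ne' h6.ne']
  constructor
  · exact Real.log_lt_log p1 (by rw [hid]; linarith)
  · exact Real.log_lt_log p2 (by rw [hid]; linarith)

lemma o_cyc (a b c : Pt) : o a b c = o b c a := by unfold o; ring

theorem clpto : S_CLpto := by
  intro T hT b c d e hb hbc hcd hde he
  obtain ⟨hper, hpos⟩ := hT
  have key : ∀ r : ℤ,
      (ff T b (c - b) r + ff T d (e - d) r < ff T b (d - b) r + ff T c (e - c) r) ∧
      (ff T b (e - b) r + ff T c (d - c) r < ff T b (d - b) r + ff T c (e - c) r) := by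
    intro r
    have := pto (T r) (T (r + b)) (T (r + c)) (T (r + d)) (T (r + e))
      (hpos _ _ _ (by omega) (by omega) (by omega)) (hpos _ _ _ (by omega) (by omega) (by omega))
      (hpos _ _ _ (by omega) (by omega) (by omega)) (hpos _ _ _ (by omega) (by omega) (by omega))
      (hpos _ _ _ (by omega) (by omega) (by omega)) (hpos _ _ _ (by omega) (by omega) (by omega))
    unfold ff
    rw [show r + b + (c - b) = r + c by ring, show r + d + (e - d) = r + e by ring,
      show r + b + (d - b) = r + d by ring, show r + c + (e - c) = r + e by ring,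
      show r + b + (e - b) = r + e by ring, show r + c + (d - c) = r + d by ring]
    exact this
  have key' : ∀ r : ℤ,
      (ff T (c - b) b (r + -c) + ff T (e - d) d (r + -e) <
        ff T (d - b) b (r + -d) + ff T (e - c) c (r + -e)) ∧
      (ff T (e - b) b (r + -e) + ff T (d - c) c (r + -d) <
        ff T (d - b) b (r + -d) + ff T (e - c) c (r + -e)) := by
    intro r
    have hm : ∀ x y : ℤ, 0 < x → x < y → y < 24 → ff T (y - x) x (r + -y) =
        Real.log (o (T r) (T (r - y)) (T (r - x))) ∧ 0 < o (T r) (T (r - y)) (T (r - x)) := by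
      intro x y hx hxy hy
      have e1 : o (T r) (T (r - y)) (T (r - x)) = o (T (r - y)) (T (r - x)) (T r) := o_cyc _ _ _
      constructor
      · rw [e1]
        unfold ff
        rw [show r + -y = r - y by ring, show r - y + (y - x) = r - x by ring,
          show r - x + x = r by ring]
      · rw [e1]
        exact hpos _ _ _ (by omega) (by omega) (by omega)
    obtain ⟨a1, p1⟩ := hm b c hb hbc (by omega)
    obtain ⟨a2, p2⟩ := hm d e (by omega) hde (by omega)
    obtain ⟨a3, p3⟩ := hm b d hb (by omega) (by omega)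
    obtain ⟨a4, p4⟩ := hm c e (by omega) (by omega) (by omega)
    obtain ⟨a5, p5⟩ := hm b e hb (by omega) (by omega)
    obtain ⟨a6, p6⟩ := hm c d (by omega) hcd (by omega)
    rw [a1, a2, a3, a4, a5, a6]
    have := pto (T r) (T (r - e)) (T (r - d)) (T (r - c)) (T (r - b)) p2 p1 p5 p6 p4 p3
    constructor
    · linarith [this.1]
    · linarith [this.2]
  have hsh : ∀ s t x : ℤ, ∑ r ∈ range 24, ff T s t ((r : ℤ) + x) = ∑ r ∈ range 24, ff T s t (r : ℤ) :=
    fun s t x => shift (ff T s t) (ff_per T hper s t) x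
  have hne : (range 24).Nonempty := ⟨0, by simp⟩
  have s1 := Finset.sum_lt_sum_of_nonempty hne (fun r (_ : r ∈ range 24) => (key (r : ℤ)).1)
  have s2 := Finset.sum_lt_sum_of_nonempty hne (fun r (_ : r ∈ range 24) => (key (r : ℤ)).2)
  have s3 := Finset.sum_lt_sum_of_nonempty hne (fun r (_ : r ∈ range 24) => (key' (r : ℤ)).1)
  have s4 := Finset.sum_lt_sum_of_nonempty hne (fun r (_ : r ∈ range 24) => (key' (r : ℤ)).2)
  simp only [Finset.sum_add_distrib, hsh] at s1 s2 s3 s4
  simp only [CL_eq]
  constructor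
  · linarith
  · linarith

end Pool.Agent.W806.PT
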